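import Mathlib
import Pool.Agent.W769.SR.Stm

/-! Project SR (helper769), part SR-LITT: Littlewood's inequality for polynomials. -/

set_option autoImplicit false

namespace Pool.Agent.W577.SR.Litt

open Pool.Agent.W769.SR
open Metric Set Filter Topology Real

theorem aux (φ : ℂ → ℂ) (hφ : SelfMap φ) (r : ℝ) (hr : 0 < r) (hr1 : r < 1) (n : ℕ) :
    ∀ P : Polynomial ℂ, P.natDegree ≤ n →
      av r (fun z => ‖P.eval (φ z)‖ ^ 2) ≤
        ∑ k ∈ Finset.range (n + 1), ‖P.coeff k‖ ^ 2 * r ^ (2 * k) := by
  have hsub : closedBall (0 : ℂ) |r| ⊆ ball (0 : ℂ) 1 := by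
    intro z hz
    rw [mem_closedBall_zero_iff, abs_of_pos hr] at hz
    rw [mem_ball_zero_iff]
    linarith
  have hsph : sphere (0 : ℂ) |r| ⊆ ball (0 : ℂ) 1 := sphere_subset_closedBall.trans hsub
  have hφc : ContinuousOn φ (sphere (0 : ℂ) |r|) := (hφ.diff.continuousOn).mono hsph
  have hcont : ∀ Q : Polynomial ℂ, ContinuousOn (fun z => Q.eval (φ z)) (sphere (0 : ℂ) |r|) := by
    intro Q
    exact Q.continuous.comp_continuousOn hφc
  induction n with
  | zero =>
    intro P hP
    have hP' : P = Polynomial.C (P.coeff 0) := Polynomial.eq_C_of_natDegree_le_zero hP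
    have h1 : (fun z : ℂ => ‖P.eval (φ z)‖ ^ 2) = fun _ => ‖P.coeff 0‖ ^ 2 := by
      funext z
      conv_lhs => rw [hP']
      rw [Polynomial.eval_C]
    unfold av
    rw [h1, Real.circleAverage_const]
    simp
  | succ n ih =>
    intro P hP
    set Q := P.divX with hQ
    have hQd : Q.natDegree ≤ n := by
      rw [hQ, Polynomial.natDegree_divX_eq_natDegree_tsub_one]
      omega
    have hQc : ∀ k, Q.coeff k = P.coeff (k + 1) := fun k => Polynomial.coeff_divX
    set a : ℂ := P.coeff 0 with ha
    have hev : ∀ w : ℂ, P.eval w = Q.eval w * w + a := by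
      intro w
      have h := congrArg (Polynomial.eval w) (Polynomial.divX_mul_X_add P)
      rw [Polynomial.eval_add, Polynomial.eval_mul, Polynomial.eval_X, Polynomial.eval_C] at h
      exact h.symm
    -- the analytic function in the middle
    set F : ℂ → ℂ := fun z => (2 * (starRingEnd ℂ) a) * (φ z * Q.eval (φ z)) with hF
    have hFd : DifferentiableOn ℂ F (ball 0 1) := by
      have hq : DifferentiableOn ℂ (fun z => Q.eval (φ z)) (ball 0 1) := by
        have := (Q.differentiable).comp_differentiableOn hφ.diff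
        exact this
      exact (hφ.diff.mul hq).const_mul _
    have hFcl : DiffContOnCl ℂ F (ball (0 : ℂ) |r|) := by
      apply DifferentiableOn.diffContOnCl
      rw [closure_ball (0 : ℂ) (by rw [abs_of_pos hr]; exact hr.ne')]
      exact hFd.mono hsub
    have hFav : Real.circleAverage F 0 r = 0 := by
      rw [DiffContOnCl.circleAverage hFcl]
      simp [hF, hφ.zero]
    have hFcont : ContinuousOn F (sphere (0 : ℂ) |r|) := hFd.continuousOn.mono hsph
    have hFci : CircleIntegrable F 0 r := hFcont.circleIntegrable'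
    have hRe : Real.circleAverage (fun z => (F z).re) 0 r = 0 := by
      have h := (Complex.reCLM).circleAverage_comp_comm hFci
      rw [hFav] at h
      simpa [Function.comp_def] using h
    have hpt : ∀ z ∈ sphere (0 : ℂ) |r|, ‖P.eval (φ z)‖ ^ 2 ≤
        (‖a‖ ^ 2 + (F z).re) + r ^ 2 * ‖Q.eval (φ z)‖ ^ 2 := by
      intro z hz
      have hz1 : ‖z‖ = r := by
        rw [mem_sphere_zero_iff_norm, abs_of_pos hr] at hz
        exact hz
      have hz2 : ‖φ z‖ ≤ r := by
        have h := Complex.norm_le_norm_of_mapsTo_ball hφ.diff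
          (hφ.maps.mono_right ball_subset_closedBall) hφ.zero (z := z) (by rw [hz1]; exact hr1)
        rwa [hz1] at h
      have e1 : ‖P.eval (φ z)‖ ^ 2 = ‖a‖ ^ 2 + (F z).re + ‖φ z‖ ^ 2 * ‖Q.eval (φ z)‖ ^ 2 := by
        rw [hev, hF]
        simp only [← Complex.normSq_eq_norm_sq, Complex.normSq_apply, Complex.add_re,
          Complex.add_im, Complex.mul_re, Complex.mul_im, Complex.conj_re, Complex.conj_im]
        norm_num
        ring
      rw [e1]
      have h2 : ‖φ z‖ ^ 2 ≤ r ^ 2 := by
        exact pow_le_pow_left₀ (norm_nonneg _) hz2 2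
      have h3 := mul_le_mul_of_nonneg_right h2 (sq_nonneg ‖Q.eval (φ z)‖)
      linarith
    have hci1 : CircleIntegrable (fun z => ‖P.eval (φ z)‖ ^ 2) 0 r :=
      ((hcont P).norm.pow 2).circleIntegrable'
    have hciQ : CircleIntegrable (fun z => ‖Q.eval (φ z)‖ ^ 2) 0 r :=
      ((hcont Q).norm.pow 2).circleIntegrable'
    have hciQ' : CircleIntegrable (fun z => r ^ 2 * ‖Q.eval (φ z)‖ ^ 2) 0 r :=
      (((hcont Q).norm.pow 2).const_mul (r ^ 2)).circleIntegrable'
    have hcire : CircleIntegrable (fun z => (F z).re) 0 r := by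
      have : ContinuousOn (fun z => (F z).re) (sphere (0 : ℂ) |r|) :=
        Complex.continuous_re.comp_continuousOn hFcont
      exact this.circleIntegrable'
    have hcia : CircleIntegrable (fun z : ℂ => ‖a‖ ^ 2 + (F z).re) 0 r := by
      have : ContinuousOn (fun z => ‖a‖ ^ 2 + (F z).re) (sphere (0 : ℂ) |r|) :=
        continuousOn_const.add (Complex.continuous_re.comp_continuousOn hFcont)
      exact this.circleIntegrable'
    have hmono := Real.circleAverage_mono hci1 (hcia.add hciQ') hpt
    have hR : Real.circleAverage ((fun z : ℂ => ‖a‖ ^ 2 + (F z).re) +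
        (fun z => r ^ 2 * ‖Q.eval (φ z)‖ ^ 2)) 0 r =
        ‖a‖ ^ 2 + r ^ 2 * av r (fun z => ‖Q.eval (φ z)‖ ^ 2) := by
      rw [Real.circleAverage_add hcia hciQ',
        Real.circleAverage_fun_add (circleIntegrable_const _ _ _) hcire, hRe,
        Real.circleAverage_const]
      have := Real.circleAverage_fun_smul (a := (r ^ 2 : ℝ)) (f := fun z => ‖Q.eval (φ z)‖ ^ 2)
        (c := (0 : ℂ)) (R := r)
      simp only [smul_eq_mul] at this
      rw [this]
      unfold av
      ring
    have hI := ih Q hQd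
    unfold av at hI ⊢
    rw [hR] at hmono
    unfold av at hmono
    have hr2 : 0 ≤ r ^ 2 := sq_nonneg r
    have h5 := mul_le_mul_of_nonneg_left hI hr2
    have h6 : ∑ k ∈ Finset.range (n + 1 + 1), ‖P.coeff k‖ ^ 2 * r ^ (2 * k) =
        r ^ 2 * (∑ k ∈ Finset.range (n + 1), ‖Q.coeff k‖ ^ 2 * r ^ (2 * k)) + ‖a‖ ^ 2 := by
      rw [Finset.sum_range_succ', Finset.mul_sum]
      congr 1
      · apply Finset.sum_congr rfl
        intro k _
        rw [hQc]
        ring
      · simp [ha]
    rw [h6]
    linarith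

theorem main : S_LITT := by
  intro φ hφ P r hr hr1
  exact aux φ hφ r hr hr1 P.natDegree P le_rfl

end Pool.Agent.W577.SR.Litt
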